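import Pool.Agent.H380.AG.Stm
import Pool.Graph.R_seed8.W646.AG.Basic

set_option autoImplicit false

/-!
# Angles in sets of large dimension: the chain of stages (Task CHAIN)
-/

open MeasureTheory Metric Set Filter Topology
open scoped ENNReal RealInnerProductSpace

namespace Pool.Agent.H231.AG

open Pool.Agent.W778.AG Pool.Agent.H380.AG Pool.Agent.W646.AG

/-- Comparison of two double integrals. -/
theorem int_int_sub_le {X Y : Type*} [MeasurableSpace X] [MeasurableSpace Y] (μ : Measure X)
    (μ' : Measure Y) [IsProbabilityMeasure μ] [IsProbabilityMeasure μ'] (F G : X → Y → ℝ)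
    (hF : StronglyMeasurable (Function.uncurry F)) (hG : StronglyMeasurable (Function.uncurry G))
    (M : ℝ) (hFM : ∀ x z, |F x z| ≤ M) (hGM : ∀ x z, |G x z| ≤ M) (c : ℝ)
    (h : ∀ᵐ x ∂μ, ∀ᵐ z ∂μ', |F x z - G x z| ≤ c) :
    |(∫ x, ∫ z, F x z ∂μ' ∂μ) - ∫ x, ∫ z, G x z ∂μ' ∂μ| ≤ c := by
  have inner : ∀ H : X → Y → ℝ, StronglyMeasurable (Function.uncurry H) → (∀ x z, |H x z| ≤ M) →
      ∀ x, Integrable (H x) μ' := by
    intro H hH hHM x
    exact Integrable.of_bound (hH.of_uncurry_left).aestronglyMeasurable M
      (Filter.Eventually.of_forall fun z => hHM x z)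
  have outer : ∀ H : X → Y → ℝ, StronglyMeasurable (Function.uncurry H) → (∀ x z, |H x z| ≤ M) →
      Integrable (fun x => ∫ z, H x z ∂μ') μ := by
    intro H hH hHM
    refine Integrable.of_bound (hH.integral_prod_right).aestronglyMeasurable M
      (Filter.Eventually.of_forall fun x => ?_)
    have := norm_integral_le_of_norm_le_const (μ := μ') (f := H x) (C := M)
      (Filter.Eventually.of_forall fun z => hHM x z)
    simpa using this
  rw [← integral_sub (outer F hF hFM) (outer G hG hGM), ← Real.norm_eq_abs]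
  have key : ∀ᵐ x ∂μ, ‖(∫ z, F x z ∂μ') - ∫ z, G x z ∂μ'‖ ≤ c := by
    filter_upwards [h] with x hx
    rw [← integral_sub (inner F hF hFM x) (inner G hG hGM x)]
    have := norm_integral_le_of_norm_le_const (μ := μ') (f := fun z => F x z - G x z) (C := c)
      (by filter_upwards [hx] with z hz using by rwa [Real.norm_eq_abs])
    simpa using this
  have := norm_integral_le_of_norm_le_const key
  simpa using this

variable {n q : ℕ} {α : ℝ}

theorem kernel_meas (hc : Continuous fun p : En n × En n => Ok n q α p.1 p.2) (y₁ y₂ : En n) :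
    StronglyMeasurable (Function.uncurry fun x z : En n =>
      Ok n q α (dir (x - y₁)) (dir (z - y₂))) := by
  have h1 : Measurable fun p : En n × En n => (dir (p.1 - y₁), dir (p.2 - y₂)) :=
    (measurable_dir.comp (measurable_fst.sub_const y₁)).prodMk
      (measurable_dir.comp (measurable_snd.sub_const y₂))
  exact (hc.measurable.comp h1).stronglyMeasurable

theorem kernel_meas_swap (hc : Continuous fun p : En n × En n => Ok n q α p.1 p.2) (y₁ y₂ : En n) :
    StronglyMeasurable (Function.uncurry fun z x : En n =>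
      Ok n q α (dir (x - y₁)) (dir (z - y₂))) := by
  have h1 : Measurable fun p : En n × En n => (dir (p.2 - y₁), dir (p.1 - y₂)) :=
    (measurable_dir.comp (measurable_snd.sub_const y₁)).prodMk
      (measurable_dir.comp (measurable_fst.sub_const y₂))
  exact (hc.measurable.comp h1).stronglyMeasurable

theorem kernel_bound {L : ℝ} (hneg : ∀ u v : En n, Ok n q α (-u) v = -Ok n q α u v)
    (hlip : ∀ u u' v : En n, ‖u‖ ≤ 1 → ‖u'‖ ≤ 1 → ‖v‖ ≤ 1 →
      |Ok n q α u v - Ok n q α u' v| ≤ L * ‖u - u'‖) (hL : 0 < L) (u v : En n) (hu : ‖u‖ ≤ 1)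
    (hv : ‖v‖ ≤ 1) : |Ok n q α u v| ≤ L := by
  have h := hlip u (-u) v hu (by rwa [norm_neg]) hv
  rw [hneg, sub_neg_eq_add, sub_neg_eq_add, ← two_mul, abs_mul, abs_of_pos (by norm_num : (0:ℝ) < 2)] at h
  have h2 : ‖u + u‖ ≤ 2 := (norm_add_le u u).trans (by linarith)
  nlinarith

theorem meas_dir_sub (y : En n) : Measurable fun x : En n => dir (x - y) :=
  measurable_dir.comp (measurable_id.sub_const y)

theorem map_prob (ω : Measure (En n)) [IsProbabilityMeasure ω] (y : En n) :
    IsProbabilityMeasure (ω.map fun x => dir (x - y)) :=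
  Measure.isProbabilityMeasure_map (measurable_dir.comp (measurable_id.sub_const y)).aemeasurable

theorem map_ball (ω : Measure (En n)) (y : En n) :
    (ω.map fun x => dir (x - y)) (closedBall 0 1)ᶜ = 0 := by
  rw [Measure.map_apply (meas_dir_sub y) measurableSet_closedBall.compl]
  have : (fun x => dir (x - y)) ⁻¹' (closedBall (0 : En n) 1)ᶜ = ∅ := by
    ext x
    simp [norm_dir_le]
  rw [this, measure_empty]

theorem Of_eq (hc : Continuous fun p : En n × En n => Ok n q α p.1 p.2)
    (hof : ∀ μ μ' : Measure (En n), IsProbabilityMeasure μ → IsProbabilityMeasure μ' →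
      μ (closedBall 0 1)ᶜ = 0 → μ' (closedBall 0 1)ᶜ = 0 →
      Of n q α μ μ' = ∫ u, ∫ v, Ok n q α u v ∂μ' ∂μ)
    (ω ω' : Measure (En n)) [IsProbabilityMeasure ω] [IsProbabilityMeasure ω'] (y : En n) :
    Of n q α (ω.map fun x => dir (x - y)) (ω'.map fun x => dir (x - y)) =
      ∫ x, ∫ z, Ok n q α (dir (x - y)) (dir (z - y)) ∂ω' ∂ω := by
  have hm : Measurable fun x : En n => dir (x - y) := measurable_dir.comp (measurable_id.sub_const y)
  have := map_prob ω y
  have := map_prob ω' y
  rw [hof _ _ (map_prob ω y) (map_prob ω' y) (map_ball ω y) (map_ball ω' y)]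
  rw [integral_map hm.aemeasurable]
  · refine integral_congr_ae (Filter.Eventually.of_forall fun x => ?_)
    simp only
    rw [integral_map hm.aemeasurable]
    exact (hc.comp (Continuous.prodMk continuous_const continuous_id)).aestronglyMeasurable
  · exact (hc.stronglyMeasurable.integral_prod_right (f := fun u v => Ok n q α u v)).aestronglyMeasurable

/-- Directions change little. -/
theorem dir_change {y y' x : En n} {a ε : ℝ} (ha : 0 < a) (hx : x ∉ ball y a)
    (hyy : dist y' y < ε) (hε : ε ≤ a / 4) : ‖dir (x - y') - dir (x - y)‖ ≤ 2 * ε * a⁻¹ := by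
  have h1 : a ≤ ‖x - y‖ := by
    rw [mem_ball, dist_eq_norm, not_lt] at hx
    exact hx
  have h2 : ‖y' - y‖ < ε := by rwa [← dist_eq_norm]
  have h0 : x - y ≠ 0 := by
    intro h
    rw [h, norm_zero] at h1
    linarith
  have h3 : x - y' ≠ 0 := by
    intro h
    have : x = y' := sub_eq_zero.1 h
    subst this
    have : ‖x - y‖ < a := lt_of_lt_of_le h2 (by linarith)
    linarith
  have h4 := dir_sub_dir_le h0 h3
  rw [norm_sub_rev]
  refine h4.trans ?_
  have h5 : x - y - (x - y') = y' - y := by abel
  rw [h5]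
  have hpos : 0 < ‖x - y‖ := lt_of_lt_of_le ha h1
  have hε0 : 0 ≤ ε := le_trans (norm_nonneg _) h2.le
  calc 2 * ‖y' - y‖ / ‖x - y‖ ≤ 2 * ε / a := by
        gcongr
    _ = 2 * ε * a⁻¹ := by rw [div_eq_mul_inv]

theorem psi_cont (hc : Continuous fun p : En n × En n => Ok n q α p.1 p.2)
    (ω : Measure (En n)) [IsProbabilityMeasure ω] (y : En n) :
    Continuous fun u : En n => ∫ x, Ok n q α (dir (x - y)) u ∂ω := by
  rw [continuous_iff_continuousAt]
  intro u0
  have hK : IsCompact (closedBall (0 : En n) 1 ×ˢ closedBall u0 1) :=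
    (isCompact_closedBall _ _).prod (isCompact_closedBall _ _)
  obtain ⟨M, hM⟩ := hK.exists_bound_of_continuousOn hc.continuousOn
  refine continuousAt_of_dominated (bound := fun _ => M) ?_ ?_ (integrable_const M) ?_
  · refine Filter.Eventually.of_forall fun u => ?_
    exact ((hc.comp (Continuous.prodMk continuous_id continuous_const)).measurable.comp
      (meas_dir_sub y)).aestronglyMeasurable
  · filter_upwards [closedBall_mem_nhds u0 one_pos] with u hu
    refine Filter.Eventually.of_forall fun x => ?_
    exact hM (dir (x - y), u) ⟨by simpa using norm_dir_le _, hu⟩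
  · refine Filter.Eventually.of_forall fun x => ?_
    exact (hc.comp (Continuous.prodMk continuous_const continuous_id)).continuousAt

theorem t_CHAIN (h1 : S_BB) (h2 : S_OK) : S_CHAIN := by
  intro n q α κ R β τ C δ ν K hn hκ0 hκ1 hR0 hR1 hβ0 hβ1 hτ hC hδ hRR hν hK hνK hball J
  obtain ⟨hc, hsymm, hneg, ⟨L, hL, hlip⟩, hof⟩ := h2 n q α
  have hmemK : ∀ y : En n, (∀ ε : ℝ, 0 < ε → 0 < ν (ball y ε)) → y ∈ K := by
    intro y hy
    by_contra hyK
    obtain ⟨r, hr, hsub⟩ := Metric.isOpen_iff.1 hK.isClosed.isOpen_compl y hyK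
    have h0 : ν (ball y r) = 0 := measure_mono_null hsub hνK
    have := hy r hr
    rw [h0] at this
    exact lt_irrefl _ this
  induction J with
  | zero =>
    obtain ⟨y, -, hy⟩ := exists_mem_forall_mem_nhdsWithin_pos_measure (μ := ν) (s := univ)
      (by rw [measure_univ]; exact one_ne_zero)
    have hy' : ∀ ε : ℝ, 0 < ε → 0 < ν (ball y ε) := fun ε hε =>
      hy _ (mem_nhdsWithin_of_mem_nhds (ball_mem_nhds y hε))
    refine ⟨y, fun i => i.elim0, fun i => i.elim0, fun i => i.elim0, hmemK y hy', hy',
      fun i => i.elim0, ?_⟩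
    simp
  | succ J ih =>
    obtain ⟨y, ω, a, D, hyK, hysupp, hwit, hsum⟩ := ih
    have hωp : ∀ i, IsProbabilityMeasure (ω i) := fun i => (hwit i).1
    have ha : ∀ i, 0 < a i := fun i => (hwit i).2.2.1
    set A : ℝ := ∑ i, (a i)⁻¹ with hA
    have hA0 : 0 ≤ A := Finset.sum_nonneg fun i _ => (inv_pos.2 (ha i)).le
    have hAi : ∀ i, (a i)⁻¹ ≤ A := fun i =>
      Finset.single_le_sum (f := fun i => (a i)⁻¹) (fun i _ => (inv_pos.2 (ha i)).le)
        (Finset.mem_univ i)
    set E : ℝ := L * A * (4 * (J : ℝ) ^ 2 + 2 * J) with hE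
    have hE0 : 0 ≤ E := by positivity
    set ε : ℝ := min (1 / (4 * (A + 1))) (δ / (E + 1)) with hε
    have hε0 : 0 < ε := lt_min (by positivity) (by positivity)
    have hεE : ε * E ≤ δ := by
      have h3 : ε ≤ δ / (E + 1) := min_le_right _ _
      calc ε * E ≤ δ / (E + 1) * E := by gcongr
        _ ≤ δ := by
          rw [div_mul_eq_mul_div, div_le_iff₀ (by positivity)]
          nlinarith
    have hεa : ∀ i, ε ≤ a i / 4 := by
      intro i
      have h3 : ε ≤ 1 / (4 * (A + 1)) := min_le_left _ _
      refine h3.trans ?_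
      have h4 := hAi i
      have h5 : 1 ≤ A * a i := by
        have := mul_le_mul_of_nonneg_right h4 (ha i).le
        rwa [inv_mul_cancel₀ (ha i).ne'] at this
      rw [div_le_iff₀ (by positivity)]
      nlinarith [ha i]
    set ψ : En n → ℝ := fun u => ∑ i, ∫ x, Ok n q α (dir (x - y)) u ∂(ω i) with hψ
    have hψc : Continuous ψ := by
      rw [hψ]
      refine continuous_finsetSum _ fun i _ => ?_
      have := hωp i
      exact psi_cont hc (ω i) y
    have hψo : ∀ u, ψ (-u) = -ψ u := by
      intro u
      rw [hψ]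
      simp only
      rw [← Finset.sum_neg_distrib]
      refine Finset.sum_congr rfl fun i _ => ?_
      rw [← integral_neg]
      refine integral_congr_ae (Filter.Eventually.of_forall fun x => ?_)
      simp only
      rw [hsymm, hneg, hsymm]
    obtain ⟨y', ωJ, aJ, DJ, hdist, hsupp', hwitJ, hineq⟩ := h1 n κ R β τ C ε ν ψ y hn hκ0 hκ1 hR0
      hR1 hβ0 hβ1 hτ hC hε0 hRR inferInstance hball hysupp hψc hψo
    have hωJ : IsProbabilityMeasure ωJ := hwitJ.1
    -- change of the kernels
    have hae : ∀ i, ∀ᵐ x ∂(ω i), ‖dir (x - y') - dir (x - y)‖ ≤ 2 * ε * (a i)⁻¹ := by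
      intro i
      have h0 : ω i (ball y (a i)) = 0 := (hwit i).2.2.2.1
      have : ∀ᵐ x ∂(ω i), x ∉ ball y (a i) := measure_eq_zero_iff_ae_notMem.1 h0
      filter_upwards [this] with x hx
      exact dir_change (ha i) hx hdist (hεa i)
    have hbd : ∀ (y₁ y₂ : En n) (x z : En n), |Ok n q α (dir (x - y₁)) (dir (z - y₂))| ≤ L :=
      fun y₁ y₂ x z => kernel_bound hneg hlip hL _ _ (norm_dir_le _) (norm_dir_le _)
    have hAε : ∀ i, L * (2 * ε * (a i)⁻¹) ≤ 2 * L * A * ε := by
      intro i
      have := hAi i
      have h3 : 0 ≤ 2 * L * ε := by positivity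
      calc L * (2 * ε * (a i)⁻¹) = 2 * L * ε * (a i)⁻¹ := by ring
        _ ≤ 2 * L * ε * A := by gcongr
        _ = 2 * L * A * ε := by ring
    have hold : ∀ i j : Fin J,
        |Of n q α ((ω i).map (fun x => dir (x - y'))) ((ω j).map (fun x => dir (x - y'))) -
          Of n q α ((ω i).map (fun x => dir (x - y))) ((ω j).map (fun x => dir (x - y)))| ≤
        4 * L * A * ε := by
      intro i j
      have := hωp i
      have := hωp j
      rw [Of_eq hc hof, Of_eq hc hof]
      refine int_int_sub_le (ω i) (ω j) _ _ (kernel_meas hc y' y') (kernel_meas hc y y) L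
        (hbd y' y') (hbd y y) _ ?_
      filter_upwards [hae i] with x hx
      filter_upwards [hae j] with z hz
      have e1 := hlip (dir (x - y')) (dir (x - y)) (dir (z - y')) (norm_dir_le _) (norm_dir_le _)
        (norm_dir_le _)
      have e2 := hlip (dir (z - y')) (dir (z - y)) (dir (x - y)) (norm_dir_le _) (norm_dir_le _)
        (norm_dir_le _)
      rw [hsymm (dir (z - y')), hsymm (dir (z - y))] at e2
      have e3 : L * ‖dir (x - y') - dir (x - y)‖ ≤ 2 * L * A * ε :=
        (mul_le_mul_of_nonneg_left hx hL.le).trans (hAε i)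
      have e4 : L * ‖dir (z - y') - dir (z - y)‖ ≤ 2 * L * A * ε :=
        (mul_le_mul_of_nonneg_left hz hL.le).trans (hAε j)
      have e5 := abs_sub_le (Ok n q α (dir (x - y')) (dir (z - y')))
        (Ok n q α (dir (x - y)) (dir (z - y'))) (Ok n q α (dir (x - y)) (dir (z - y)))
      linarith
    have hnew : ∀ i : Fin J,
        |Of n q α ((ω i).map (fun x => dir (x - y'))) (ωJ.map (fun x => dir (x - y'))) -
          ∫ z, ∫ x, Ok n q α (dir (x - y)) (dir (z - y')) ∂(ω i) ∂ωJ| ≤ 2 * L * A * ε := by
      intro i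
      have := hωp i
      rw [Of_eq hc hof]
      have hint : Integrable (Function.uncurry fun x z : En n =>
          Ok n q α (dir (x - y')) (dir (z - y'))) ((ω i).prod ωJ) :=
        Integrable.of_bound (kernel_meas hc y' y').aestronglyMeasurable L
          (Filter.Eventually.of_forall fun p => hbd y' y' p.1 p.2)
      rw [integral_integral_swap hint]
      refine int_int_sub_le ωJ (ω i) _ _ (kernel_meas_swap hc y' y') (kernel_meas_swap hc y y') L
        (fun z x => hbd y' y' x z) (fun z x => hbd y y' x z) _ ?_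
      refine Filter.Eventually.of_forall fun z => ?_
      filter_upwards [hae i] with x hx
      have e1 := hlip (dir (x - y')) (dir (x - y)) (dir (z - y')) (norm_dir_le _) (norm_dir_le _)
        (norm_dir_le _)
      exact e1.trans ((mul_le_mul_of_nonneg_left hx hL.le).trans (hAε i))
    have hψint : ∫ z, ψ (dir (z - y')) ∂ωJ =
        ∑ i, ∫ z, ∫ x, Ok n q α (dir (x - y)) (dir (z - y')) ∂(ω i) ∂ωJ := by
      rw [hψ]
      simp only
      rw [integral_finsetSum]
      intro i _
      have := hωp i
      refine Integrable.of_bound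
        ((kernel_meas_swap hc y y').integral_prod_right (ν := ω i)).aestronglyMeasurable L
        (Filter.Eventually.of_forall fun z => ?_)
      have := norm_integral_le_of_norm_le_const (μ := ω i)
        (f := fun x => Ok n q α (dir (x - y)) (dir (z - y'))) (C := L)
        (Filter.Eventually.of_forall fun x => hbd y y' x z)
      simpa using this
    refine ⟨y', Fin.snoc (α := fun _ => Measure (En n)) ω ωJ,
      Fin.snoc (α := fun _ => ℝ) (fun i => a i / 2) aJ, Fin.snoc (α := fun _ => ℝ) D DJ,
      hmemK y' hsupp', hsupp', ?_, ?_⟩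
    · intro i
      refine Fin.lastCases ?_ (fun i => ?_) i
      · simpa only [Fin.snoc_last] using hwitJ
      · simp only [Fin.snoc_castSucc]
        obtain ⟨w1, w2, w3, w4, w5, w6⟩ := hwit i
        refine ⟨w1, w2, by linarith, ?_, w5, ?_⟩
        · refine measure_mono_null ?_ w4
          intro z hz
          rw [mem_ball] at hz ⊢
          have := dist_triangle z y' y
          have := hεa i
          linarith
        · intro y'' hy'' r hr v hv
          refine w6 y'' ?_ r hr v hv
          have := dist_triangle y'' y' y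
          have := hεa i
          linarith
    · have hp : ∀ f : Fin (J + 1) → Fin (J + 1) → ℝ,
          ∑ i, ∑ j ∈ Finset.univ.filter (fun j => i < j), f i j =
          (∑ i : Fin J, ∑ j ∈ Finset.univ.filter (fun j => i < j), f i.castSucc j.castSucc) +
            ∑ i : Fin J, f i.castSucc (Fin.last J) := by
        intro f
        simp only [Finset.sum_filter]
        rw [Fin.sum_univ_castSucc]
        have hlast : ∑ j, (if Fin.last J < j then f (Fin.last J) j else 0) = 0 := by
          refine Finset.sum_eq_zero fun j _ => ?_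
          rw [if_neg (not_lt.2 (Fin.le_last j))]
        rw [hlast, add_zero, ← Finset.sum_add_distrib]
        refine Finset.sum_congr rfl fun i _ => ?_
        rw [Fin.sum_univ_castSucc, if_pos (Fin.castSucc_lt_last i)]
        congr 1
      rw [hp, Fin.sum_univ_castSucc]
      simp only [Fin.snoc_castSucc, Fin.snoc_last]
      have e1 : (∑ i : Fin J, ∑ j ∈ Finset.univ.filter (fun j => i < j),
          Of n q α ((ω i).map (fun x => dir (x - y))) ((ω j).map (fun x => dir (x - y)))) -
          (∑ i : Fin J, ∑ j ∈ Finset.univ.filter (fun j => i < j),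
          Of n q α ((ω i).map (fun x => dir (x - y'))) ((ω j).map (fun x => dir (x - y')))) ≤
          (J : ℝ) ^ 2 * (4 * L * A * ε) := by
        rw [← Finset.sum_sub_distrib]
        have hc0 : 0 ≤ 4 * L * A * ε := by positivity
        calc ∑ i : Fin J, ((∑ j ∈ Finset.univ.filter (fun j => i < j),
              Of n q α ((ω i).map (fun x => dir (x - y))) ((ω j).map (fun x => dir (x - y)))) -
              ∑ j ∈ Finset.univ.filter (fun j => i < j),
              Of n q α ((ω i).map (fun x => dir (x - y'))) ((ω j).map (fun x => dir (x - y'))))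
            ≤ ∑ i : Fin J, ∑ j : Fin J, (4 * L * A * ε) := by
              refine Finset.sum_le_sum fun i _ => ?_
              rw [← Finset.sum_sub_distrib]
              refine (Finset.sum_le_sum (g := fun _ => 4 * L * A * ε) fun j _ => ?_).trans
                (Finset.sum_le_sum_of_subset_of_nonneg (Finset.filter_subset _ _)
                  fun _ _ _ => hc0)
              have := (abs_le.1 (hold i j)).1
              linarith
          _ = (J : ℝ) ^ 2 * (4 * L * A * ε) := by
              simp only [Finset.sum_const, Finset.card_univ, Fintype.card_fin, nsmul_eq_mul]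
              ring
      have e2 : (∑ i, ∫ z, ∫ x, Ok n q α (dir (x - y)) (dir (z - y')) ∂(ω i) ∂ωJ) -
          ∑ i : Fin J, Of n q α ((ω i).map (fun x => dir (x - y'))) (ωJ.map (fun x => dir (x - y'))) ≤
          (J : ℝ) * (2 * L * A * ε) := by
        rw [← Finset.sum_sub_distrib]
        calc ∑ i : Fin J, ((∫ z, ∫ x, Ok n q α (dir (x - y)) (dir (z - y')) ∂(ω i) ∂ωJ) -
              Of n q α ((ω i).map (fun x => dir (x - y'))) (ωJ.map (fun x => dir (x - y'))))
            ≤ ∑ i : Fin J, (2 * L * A * ε) := by
              refine Finset.sum_le_sum fun i _ => ?_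
              have := (abs_le.1 (hnew i)).1
              linarith
          _ = (J : ℝ) * (2 * L * A * ε) := by
              simp only [Finset.sum_const, Finset.card_univ, Fintype.card_fin, nsmul_eq_mul]
      rw [hψint] at hineq
      have e3 : (J : ℝ) ^ 2 * (4 * L * A * ε) + (J : ℝ) * (2 * L * A * ε) = ε * E := by
        rw [hE]; ring
      push_cast
      linarith

end Pool.Agent.H231.AG
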